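import Pool.Agent.Lib_helper60.DD.Defs

/-!
# MP_a2cbb7_co, block M4 : `nonlac_lower` and `growth_lemma`
-/

set_option autoImplicit false

namespace Pool.Agent.DD

open Finset Classical

noncomputable section

/-- at most `2`-to-one maps -/
theorem M4_two_to_one (S T : Finset ℂ) (f : ℂ → ℂ) (hf : ∀ e ∈ S, f e ∈ T)
    (h2 : ∀ z ∈ T, (S.filter (fun e => f e = z)).card ≤ 2) :
    S.card ≤ 2 * (S.image f).card := by
  have h := Finset.card_eq_sum_card_fiberwise (f := f) (s := S) (t := S.image f)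
    (fun e he => Finset.mem_coe.mpr (Finset.mem_image_of_mem f he))
  rw [h]
  calc ∑ b ∈ S.image f, (S.filter (fun e => f e = b)).card ≤ ∑ b ∈ S.image f, 2 := by
        refine Finset.sum_le_sum fun b hb => h2 b ?_
        obtain ⟨e, he, rfl⟩ := Finset.mem_image.mp hb
        exact hf e he
    _ = 2 * (S.image f).card := by rw [Finset.sum_const, smul_eq_mul, mul_comm]

theorem growth_lemma (A E B : Finset ℂ) (hE : E ⊆ A) (x y : ℂ) (s η : ℝ) (hs : 0 < s)
    (h1 : s / 2 < dist x y) (h2 : dist x y ≤ s) (hη : 0 < η) (hη1 : η ≤ 1)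
    (hdens : η * (M A y (s/16) : ℝ) ≤ ((E.filter (fun e => dist e y ≤ s/16)).card : ℝ))
    (hB : (B.card : ℝ) ≤ η / 10 * (M A y (s/16) : ℝ))
    (hf : ∀ e ∈ E, e ∉ B → ∃ f ∈ A, f ≠ x ∧ dist e f = dist e x ∧ on E (bis x f) ≤ 2) :
    (1 + 2 / 5 * η) * (M A y (s/16) : ℝ) ≤ (M A y (9 * s / 8) : ℝ) := by
  set S := (E.filter (fun e => dist e y ≤ s/16)) \ B with hS
  have hScard : ((E.filter (fun e => dist e y ≤ s/16)).card : ℝ) ≤ S.card + B.card := by
    have : (E.filter (fun e => dist e y ≤ s/16)).card ≤ S.card + B.card := by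
      have := Finset.card_le_card_sdiff_add_card (s := E.filter (fun e => dist e y ≤ s/16)) (t := B)
      exact this
    exact_mod_cast this
  have hSmem : ∀ e ∈ S, e ∈ E ∧ dist e y ≤ s/16 ∧ e ∉ B := by
    intro e he
    simp only [hS, Finset.mem_sdiff, Finset.mem_filter] at he
    exact ⟨he.1.1, he.1.2, he.2⟩
  choose! f hfA hfx hfd hf2 using hf
  have hfib : ∀ z ∈ A, (S.filter (fun e => f e = z)).card ≤ 2 := by
    intro z _
    by_cases hz : ∃ e ∈ S, f e = z
    · obtain ⟨e, he, rfl⟩ := hz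
      have h := hf2 e (hSmem e he).1 (hSmem e he).2.2
      refine le_trans (Finset.card_le_card ?_) h
      intro e' he'
      simp only [Finset.mem_filter] at he' ⊢
      refine ⟨(hSmem e' he'.1).1, ?_⟩
      show dist e' x = dist e' (f e)
      rw [← he'.2, hfd e' (hSmem e' he'.1).1 (hSmem e' he'.1).2.2]
    · have : S.filter (fun e => f e = z) = ∅ := by
        apply Finset.filter_eq_empty_iff.mpr
        intro e he h
        exact hz ⟨e, he, h⟩
      rw [this]; simp
  have hcard := M4_two_to_one S A f (fun e he => hfA e (hSmem e he).1 (hSmem e he).2.2) hfib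
  have hdisj : Disjoint (A.filter (fun a => dist a y ≤ s/16)) (S.image f) := by
    rw [Finset.disjoint_left]
    intro z hz hz'
    obtain ⟨e, he, rfl⟩ := Finset.mem_image.mp hz'
    have hz1 := (Finset.mem_filter.mp hz).2
    have he1 := (hSmem e he).2.1
    have hd := hfd e (hSmem e he).1 (hSmem e he).2.2
    have t1 : dist e x ≤ dist e y + dist (f e) y := by
      rw [← hd, dist_comm (f e) y]
      exact dist_triangle _ _ _
    have t2 : dist x y ≤ dist e x + dist e y := by
      rw [dist_comm e x]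
      exact dist_triangle _ _ _
    linarith
  have hsub : (A.filter (fun a => dist a y ≤ s/16)) ∪ (S.image f) ⊆
      A.filter (fun a => dist a y ≤ 9 * s / 8) := by
    intro z hz
    rcases Finset.mem_union.mp hz with hz | hz
    · simp only [Finset.mem_filter] at hz ⊢
      exact ⟨hz.1, by linarith [hz.2]⟩
    · obtain ⟨e, he, rfl⟩ := Finset.mem_image.mp hz
      simp only [Finset.mem_filter]
      refine ⟨hfA e (hSmem e he).1 (hSmem e he).2.2, ?_⟩
      have he1 := (hSmem e he).2.1
      have hd := hfd e (hSmem e he).1 (hSmem e he).2.2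
      have t1 : dist (f e) y ≤ dist e x + dist e y := by
        rw [← hd, dist_comm e (f e)]
        exact dist_triangle _ _ _
      have t2 : dist e x ≤ dist e y + dist x y := by
        rw [dist_comm x y]
        exact dist_triangle _ _ _
      linarith
  have hc := Finset.card_le_card hsub
  rw [Finset.card_union_of_disjoint hdisj] at hc
  have hc' : (M A y (s/16) : ℝ) + ((S.image f).card : ℝ) ≤ (M A y (9 * s / 8) : ℝ) := by
    unfold M
    exact_mod_cast hc
  have hcard' : (S.card : ℝ) ≤ 2 * ((S.image f).card : ℝ) := by exact_mod_cast hcard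
  have hM0 : (0:ℝ) ≤ (M A y (s/16) : ℝ) := Nat.cast_nonneg _
  nlinarith

/-! ### the radii `rho` -/

theorem M_mono (A : Finset ℂ) (x : ℂ) {r r' : ℝ} (h : r ≤ r') : M A x r ≤ M A x r' := by
  unfold M
  apply Finset.card_le_card
  intro a ha
  simp only [Finset.mem_filter] at ha ⊢
  exact ⟨ha.1, ha.2.trans h⟩

/-- for `0 < m ≤ |A|`, `rho A x m` is the distance of a point of `A`, and it is the least radius -/
theorem rho_spec (A : Finset ℂ) (x : ℂ) (m : ℝ) (hm : 0 < m) (hmA : m ≤ A.card) :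
    0 ≤ rho A x m ∧ m ≤ (M A x (rho A x m) : ℝ) ∧
      ∀ r : ℝ, 0 ≤ r → m ≤ (M A x r : ℝ) → rho A x m ≤ r := by
  -- the farthest point
  have key : ∀ r : ℝ, m ≤ (M A x r : ℝ) → ∃ a ∈ A, dist a x ≤ r ∧ M A x (dist a x) = M A x r := by
    intro r hr
    have hne : (A.filter (fun a => dist a x ≤ r)).Nonempty := by
      rw [← Finset.card_pos]
      have : (0:ℝ) < (M A x r : ℝ) := lt_of_lt_of_le hm hr
      exact_mod_cast this
    obtain ⟨a, ha, hmax⟩ := Finset.exists_max_image _ (fun a => dist a x) hne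
    simp only [Finset.mem_filter] at ha
    refine ⟨a, ha.1, ha.2, le_antisymm (M_mono A x ha.2) ?_⟩
    unfold M
    apply Finset.card_le_card
    intro b hb
    have := hmax b hb
    simp only [Finset.mem_filter] at hb ⊢
    exact ⟨hb.1, this⟩
  -- the set of candidates
  have hne : (A.filter (fun a => m ≤ (M A x (dist a x) : ℝ))).Nonempty := by
    have hbig : ∃ r : ℝ, ∀ a ∈ A, dist a x ≤ r := by
      obtain ⟨r, hr⟩ := (A.finite_toSet.image (fun a => dist a x)).bddAbove
      exact ⟨r, fun a ha => hr ⟨a, ha, rfl⟩⟩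
    obtain ⟨r, hr⟩ := hbig
    have : M A x r = A.card := by
      unfold M
      rw [Finset.filter_true_of_mem hr]
    obtain ⟨a, ha, har, haM⟩ := key r (by rw [this]; exact hmA)
    exact ⟨a, Finset.mem_filter.mpr ⟨ha, by rw [haM, this]; exact hmA⟩⟩
  obtain ⟨a, ha, hmin⟩ := Finset.exists_min_image _ (fun a => dist a x) hne
  have haA := (Finset.mem_filter.mp ha).1
  have haM := (Finset.mem_filter.mp ha).2
  have hleast : IsLeast {r : ℝ | 0 ≤ r ∧ m ≤ (M A x r : ℝ)} (dist a x) := by
    refine ⟨⟨dist_nonneg, haM⟩, ?_⟩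
    rintro r ⟨hr0, hr⟩
    obtain ⟨b, hb, hbr, hbM⟩ := key r hr
    exact (hmin b (Finset.mem_filter.mpr ⟨hb, by rw [hbM]; exact hr⟩)).trans hbr
  have hrho : rho A x m = dist a x := hleast.csInf_eq
  rw [hrho]
  exact ⟨dist_nonneg, haM, fun r h0 h => hleast.2 ⟨h0, h⟩⟩

/-- fewer than `m` points are closer than `rho` -/
theorem rho_open (A : Finset ℂ) (x : ℂ) (m : ℝ) (hm : 0 < m) (hmA : m ≤ A.card) :
    ((A.filter (fun a => dist a x < rho A x m)).card : ℝ) < m := by
  by_cases hne : (A.filter (fun a => dist a x < rho A x m)).Nonempty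
  · obtain ⟨a, ha, hmax⟩ := Finset.exists_max_image _ (fun a => dist a x) hne
    have ha2 := (Finset.mem_filter.mp ha).2
    have hle : (A.filter (fun a => dist a x < rho A x m)).card ≤ M A x (dist a x) := by
      unfold M
      apply Finset.card_le_card
      intro b hb
      have := hmax b hb
      simp only [Finset.mem_filter] at hb ⊢
      exact ⟨hb.1, this⟩
    have h2 : (M A x (dist a x) : ℝ) < m := by
      by_contra h
      push Not at h
      have := (rho_spec A x m hm hmA).2.2 (dist a x) dist_nonneg h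
      linarith
    have h3 : ((A.filter (fun a => dist a x < rho A x m)).card : ℝ) ≤ (M A x (dist a x) : ℝ) := by
      exact_mod_cast hle
    linarith
  · rw [Finset.not_nonempty_iff_eq_empty] at hne
    rw [hne]; simpa using hm

theorem rho_closed (A : Finset ℂ) (hA : NC A) (x : ℂ) (m : ℝ) (hm : 0 < m) (hmA : m ≤ A.card) :
    (M A x (rho A x m) : ℝ) ≤ m + 3 := by
  have h1 := rho_open A x m hm hmA
  have h2 : (A.filter (fun a => dist a x = rho A x m)).card ≤ 3 := hA x (rho A x m)
  have h3 : M A x (rho A x m) ≤ (A.filter (fun a => dist a x < rho A x m)).card +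
      (A.filter (fun a => dist a x = rho A x m)).card := by
    unfold M
    refine le_trans (Finset.card_le_card ?_) (Finset.card_union_le _ _)
    intro a ha
    simp only [Finset.mem_union, Finset.mem_filter] at ha ⊢
    rcases ha.2.lt_or_eq with h | h
    · exact Or.inl ⟨ha.1, h⟩
    · exact Or.inr ⟨ha.1, h⟩
  have h3' : (M A x (rho A x m) : ℝ) ≤ ((A.filter (fun a => dist a x < rho A x m)).card : ℝ) +
      ((A.filter (fun a => dist a x = rho A x m)).card : ℝ) := by exact_mod_cast h3
  have h2' : ((A.filter (fun a => dist a x = rho A x m)).card : ℝ) ≤ 3 := by exact_mod_cast h2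
  linarith

/-- regular points in the annulus `ρ_{m/R} < |a - x| ≤ ρ_m` -/
theorem M4_annulus (A : Finset ℂ) (hA : NC A) (x : ℂ) (m m' b : ℝ) (hm' : 0 < m') (hmm : 4 * m' ≤ m)
    (hmA : m ≤ A.card) (hb : b + 3 ≤ m')
    (hirr : (((A.erase x).filter (fun a => ¬ Reg A x a)).card : ℝ) ≤ b) :
    m / 2 ≤ ((A.filter (fun a => (a ≠ x ∧ Reg A x a) ∧ rho A x m' < dist a x ∧
      dist a x ≤ rho A x m)).card : ℝ) := by
  have hm : 0 < m := by linarith
  have h1 := (rho_spec A x m hm hmA).2.1
  have h2 := rho_closed A hA x m' hm' (by linarith)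
  have h0 := (rho_spec A x m' hm' (by linarith)).1
  have h3 : M A x (rho A x m) ≤ M A x (rho A x m') +
      (((A.erase x).filter (fun a => ¬ Reg A x a)).card +
      (A.filter (fun a => (a ≠ x ∧ Reg A x a) ∧ rho A x m' < dist a x ∧
      dist a x ≤ rho A x m)).card) := by
    unfold M
    refine le_trans (Finset.card_le_card (t := (A.filter (fun a => dist a x ≤ rho A x m')) ∪
      (((A.erase x).filter (fun a => ¬ Reg A x a)) ∪
      (A.filter (fun a => (a ≠ x ∧ Reg A x a) ∧ rho A x m' < dist a x ∧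
      dist a x ≤ rho A x m)))) ?_)
      ((Finset.card_union_le _ _).trans (Nat.add_le_add_left (Finset.card_union_le _ _) _))
    intro a ha
    simp only [Finset.mem_filter] at ha
    by_cases hc : dist a x ≤ rho A x m'
    · exact Finset.mem_union_left _ (Finset.mem_filter.mpr ⟨ha.1, hc⟩)
    · push Not at hc
      have hax : a ≠ x := by
        rintro rfl
        rw [dist_self] at hc
        linarith
      apply Finset.mem_union_right
      by_cases hr : Reg A x a
      · exact Finset.mem_union_right _ (Finset.mem_filter.mpr ⟨ha.1, ⟨hax, hr⟩, hc, ha.2⟩)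
      · exact Finset.mem_union_left _ (Finset.mem_filter.mpr
          ⟨Finset.mem_erase.mpr ⟨hax, ha.1⟩, hr⟩)
  have h3' : (M A x (rho A x m) : ℝ) ≤ (M A x (rho A x m') : ℝ) +
      ((((A.erase x).filter (fun a => ¬ Reg A x a)).card : ℝ) +
      ((A.filter (fun a => (a ≠ x ∧ Reg A x a) ∧ rho A x m' < dist a x ∧
      dist a x ≤ rho A x m)).card : ℝ)) := by exact_mod_cast h3
  linarith

theorem nonlac_lower (A : Finset ℂ) (hA : NC A) (x : ℂ) (hx : x ∈ A) (R μ b : ℝ) (J : ℕ) (hR : 4 ≤ R)
    (hμ : 0 < μ) (hb : b + 3 ≤ μ) (hJ : μ * R ^ J ≤ A.card)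
    (hirr : (((A.erase x).filter (fun a => ¬ Reg A x a)).card : ℝ) ≤ b) :
    (((range J).filter (fun j => 1 ≤ j ∧ ¬ Lac A R x (μ * R ^ j))).card : ℝ) / (2 * R) ≤
      ∑ a ∈ A.filter (fun a => a ≠ x ∧ Reg A x a ∧ μ ≤ (M A x (dist a x) : ℝ)),
        (1:ℝ) / (M A x (2 * dist a x) : ℝ) := by
  have hR0 : 0 < R := by linarith
  have hR1 : 1 ≤ R := by linarith
  -- the levels
  have hlev : ∀ j, j ≤ J → μ * R ^ j ≤ A.card := fun j hj =>
    (mul_le_mul_of_nonneg_left (pow_le_pow_right₀ hR1 hj) hμ.le).trans hJ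
  have hpos : ∀ j, 0 < μ * R ^ j := fun j => by positivity
  -- the annulus of level j
  set G : ℕ → Finset ℂ := fun j => A.filter (fun a => (a ≠ x ∧ Reg A x a) ∧
    rho A x (μ * R ^ (j - 1)) < dist a x ∧ dist a x ≤ rho A x (μ * R ^ j)) with hG
  set Js := (range J).filter (fun j => 1 ≤ j ∧ ¬ Lac A R x (μ * R ^ j)) with hJs
  have hJs' : ∀ j ∈ Js, j < J ∧ 1 ≤ j ∧ ¬ Lac A R x (μ * R ^ j) := by
    intro j hj
    simp only [hJs, Finset.mem_filter, Finset.mem_range] at hj
    exact ⟨hj.1, hj.2.1, hj.2.2⟩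
  -- monotonicity of the radii
  have hrho_mono : ∀ i j, i ≤ j → j ≤ J → rho A x (μ * R ^ i) ≤ rho A x (μ * R ^ j) := by
    intro i j hij hj
    have h1 := rho_spec A x (μ * R ^ j) (hpos j) (hlev j hj)
    refine (rho_spec A x (μ * R ^ i) (hpos i) (hlev i (hij.trans hj))).2.2 _ h1.1 (le_trans ?_ h1.2.1)
    exact mul_le_mul_of_nonneg_left (pow_le_pow_right₀ hR1 hij) hμ.le
  have hdisj : ∀ i ∈ Js, ∀ j ∈ Js, i ≠ j → Disjoint (G i) (G j) := by
    have aux : ∀ i j, i < j → j ≤ J → Disjoint (G i) (G j) := by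
      intro i j hij hj
      rw [Finset.disjoint_left]
      intro a hai haj
      simp only [hG, Finset.mem_filter] at hai haj
      have h1 := hrho_mono i (j - 1) (by omega) (by omega)
      have h2 := hai.2.2.2
      have h3 := haj.2.2.1
      linarith
    intro i hi j hj hij
    rcases lt_or_gt_of_ne hij with h | h
    · exact aux i j h (hJs' j hj).1.le
    · exact (aux j i h (hJs' i hi).1.le).symm
  have hsub : Js.biUnion G ⊆ A.filter (fun a => a ≠ x ∧ Reg A x a ∧ μ ≤ (M A x (dist a x) : ℝ)) := by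
    intro a ha
    obtain ⟨j, hj, haj⟩ := Finset.mem_biUnion.mp ha
    simp only [hG, Finset.mem_filter] at haj
    refine Finset.mem_filter.mpr ⟨haj.1, haj.2.1.1, haj.2.1.2, ?_⟩
    have hjj := hJs' j hj
    have h1 := (rho_spec A x (μ * R ^ (j-1)) (hpos _) (hlev _ (by omega))).2.1
    have h2 : (M A x (rho A x (μ * R ^ (j-1))) : ℝ) ≤ (M A x (dist a x) : ℝ) := by
      exact_mod_cast M_mono A x haj.2.2.1.le
    have h3 : μ ≤ μ * R ^ (j - 1) := le_mul_of_one_le_right hμ.le (one_le_pow₀ hR1)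
    linarith
  have hterm : ∀ j ∈ Js, 1 / (2 * R) ≤ ∑ a ∈ G j, (1:ℝ) / (M A x (2 * dist a x) : ℝ) := by
    intro j hj
    obtain ⟨hjJ, hj1, hjL⟩ := hJs' j hj
    have hcard : μ * R ^ j / 2 ≤ ((G j).card : ℝ) := by
      apply M4_annulus A hA x (μ * R ^ j) (μ * R ^ (j-1)) b (hpos _) _ (hlev j hjJ.le) _ hirr
      · have : R ^ j = R * R ^ (j - 1) := by
          rw [← pow_succ']; congr 1; omega
        rw [this]
        have := hpos (j-1)
        nlinarith
      · have h3 : μ ≤ μ * R ^ (j - 1) := le_mul_of_one_le_right hμ.le (one_le_pow₀ hR1)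
        linarith
    have hMpos : (0:ℝ) < R * (μ * R ^ j) := by have := hpos j; positivity
    have hL : (M A x (2 * rho A x (μ * R ^ j)) : ℝ) < R * (μ * R ^ j) := by
      unfold Lac at hjL
      push Not at hjL
      exact hjL
    have hbd : ∀ a ∈ G j, 1 / (R * (μ * R ^ j)) ≤ (1:ℝ) / (M A x (2 * dist a x) : ℝ) := by
      intro a ha
      simp only [hG, Finset.mem_filter] at ha
      have hA1 : (0:ℝ) < (M A x (2 * dist a x) : ℝ) := by
        have : 0 < M A x (2 * dist a x) := by
          unfold M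
          rw [Finset.card_pos]
          refine ⟨a, Finset.mem_filter.mpr ⟨ha.1, ?_⟩⟩
          have := dist_nonneg (x := a) (y := x)
          linarith
        exact_mod_cast this
      apply one_div_le_one_div_of_le hA1
      have h1 : (M A x (2 * dist a x) : ℝ) ≤ (M A x (2 * rho A x (μ * R ^ j)) : ℝ) := by
        exact_mod_cast M_mono A x (by linarith [ha.2.2.2])
      linarith
    calc 1 / (2 * R) = (μ * R ^ j / 2) * (1 / (R * (μ * R ^ j))) := by
          have := hpos j
          field_simp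
      _ ≤ ((G j).card : ℝ) * (1 / (R * (μ * R ^ j))) :=
          mul_le_mul_of_nonneg_right hcard (by positivity)
      _ = ∑ a ∈ G j, 1 / (R * (μ * R ^ j)) := by rw [Finset.sum_const, nsmul_eq_mul]
      _ ≤ _ := Finset.sum_le_sum hbd
  calc (Js.card : ℝ) / (2 * R) = ∑ j ∈ Js, 1 / (2 * R) := by
        rw [Finset.sum_const, nsmul_eq_mul]; ring
    _ ≤ ∑ j ∈ Js, ∑ a ∈ G j, (1:ℝ) / (M A x (2 * dist a x) : ℝ) := Finset.sum_le_sum hterm
    _ = ∑ a ∈ Js.biUnion G, (1:ℝ) / (M A x (2 * dist a x) : ℝ) := by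
        rw [Finset.sum_biUnion]
        intro i hi j hj hij
        exact hdisj i hi j hj hij
    _ ≤ _ := Finset.sum_le_sum_of_subset_of_nonneg hsub (fun a _ _ => by positivity)

end

end Pool.Agent.DD
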