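import Pool.Agent.Lib_helper60.DD.Defs

/-!
# MP_a2cbb7_co, block V : heavy lines
-/

set_option autoImplicit false

namespace Pool.Agent.DD

open Finset Classical

noncomputable section

theorem V_par {u v w : ℂ} (hu : u ≠ 0) (h1 : u.re * v.im = u.im * v.re)
    (h2 : u.re * w.im = u.im * w.re) : v.re * w.im = v.im * w.re := by
  by_cases hr : u.re = 0
  · have hi : u.im ≠ 0 := by
      intro h
      exact hu (Complex.ext hr h)
    have e1 : v.re = 0 := by
      have : u.im * v.re = 0 := by rw [← h1, hr, zero_mul]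
      exact (mul_eq_zero.mp this).resolve_left hi
    have e2 : w.re = 0 := by
      have : u.im * w.re = 0 := by rw [← h2, hr, zero_mul]
      exact (mul_eq_zero.mp this).resolve_left hi
    rw [e1, e2]; ring
  · have : u.re * (v.re * w.im - v.im * w.re) = 0 := by
      linear_combination v.re * h2 - w.re * h1
    have := (mul_eq_zero.mp this).resolve_left hr
    linarith

theorem V_ln_eq {a b p p' : ℂ} (hab : a ≠ b) (hp : p ∈ ln a b) (hp' : p' ∈ ln a b) (hpp : p ≠ p') :
    ln a b = ln p p' := by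
  have hu : b - a ≠ 0 := sub_ne_zero.mpr (Ne.symm hab)
  have hv : p' - p ≠ 0 := sub_ne_zero.mpr (Ne.symm hpp)
  have e1 : (b - a).re * (p - a).im = (b - a).im * (p - a).re := hp
  have e2 : (b - a).re * (p' - a).im = (b - a).im * (p' - a).re := hp'
  have e3 : (b - a).re * (p' - p).im = (b - a).im * (p' - p).re := by
    have h1 : (p' - p).im = (p' - a).im - (p - a).im := by simp
    have h2 : (p' - p).re = (p' - a).re - (p - a).re := by simp
    rw [h1, h2]; linear_combination e2 - e1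
  have e3' : (p' - p).re * (b - a).im = (p' - p).im * (b - a).re := by linarith
  ext z
  constructor
  · intro hz
    have e4 : (b - a).re * (z - a).im = (b - a).im * (z - a).re := hz
    have e5 : (b - a).re * (z - p).im = (b - a).im * (z - p).re := by
      have h1 : (z - p).im = (z - a).im - (p - a).im := by simp
      have h2 : (z - p).re = (z - a).re - (p - a).re := by simp
      rw [h1, h2]; linear_combination e4 - e1
    exact V_par hu e3 e5
  · intro hz
    have e4 : (p' - p).re * (z - p).im = (p' - p).im * (z - p).re := hz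
    have e5 := V_par hv e3' e4
    show (b - a).re * (z - a).im = (b - a).im * (z - a).re
    have h1 : (z - a).im = (z - p).im + (p - a).im := by simp
    have h2 : (z - a).re = (z - p).re + (p - a).re := by simp
    rw [h1, h2]; linear_combination e5 + e1

theorem V_inter (A : Finset ℂ) (q : ℝ) (l l' : Set ℂ) (hl : l ∈ heavy A q) (hl' : l' ∈ heavy A q)
    (hne : l ≠ l') : (A.filter (fun p => p ∈ l ∧ p ∈ l')).card ≤ 1 := by
  rw [Finset.card_le_one]
  intro p hp p' hp'
  simp only [Finset.mem_filter] at hp hp'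
  by_contra hpp
  apply hne
  simp only [heavy, Finset.mem_filter, Finset.mem_image, Finset.mem_offDiag] at hl hl'
  obtain ⟨⟨t, ⟨_, _, ht⟩, rfl⟩, _⟩ := hl
  obtain ⟨⟨t', ⟨_, _, ht'⟩, rfl⟩, _⟩ := hl'
  rw [V_ln_eq ht hp.2.1 hp'.2.1 hpp, V_ln_eq ht' hp.2.2 hp'.2.2 hpp]

/-- number of heavy lines through `a` -/
def hd (A : Finset ℂ) (q : ℝ) (a : ℂ) : ℕ := ((heavy A q).filter (fun l => a ∈ l)).card

theorem V_sum (A : Finset ℂ) (q : ℝ) :
    ∑ l ∈ heavy A q, on A l = ∑ a ∈ A, hd A q a := by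
  unfold on hd
  simp only [Finset.card_filter]
  rw [Finset.sum_comm]

theorem V_sumsq (A : Finset ℂ) (q : ℝ) :
    ∑ a ∈ A, (hd A q a) ^ 2 ≤ ∑ a ∈ A, hd A q a + ((heavy A q).card) ^ 2 := by
  have h1 : ∀ a, (hd A q a) ^ 2 = ∑ l ∈ heavy A q, ∑ l' ∈ heavy A q,
      if a ∈ l ∧ a ∈ l' then 1 else 0 := by
    intro a
    unfold hd
    rw [Finset.card_filter, sq, Finset.sum_mul_sum]
    refine Finset.sum_congr rfl fun l _ => Finset.sum_congr rfl fun l' _ => ?_
    by_cases h : a ∈ l <;> by_cases h' : a ∈ l' <;> simp [h, h']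
  calc ∑ a ∈ A, (hd A q a) ^ 2
      = ∑ l ∈ heavy A q, ∑ l' ∈ heavy A q, ∑ a ∈ A, (if a ∈ l ∧ a ∈ l' then 1 else 0) := by
        rw [Finset.sum_congr rfl (fun a _ => h1 a), Finset.sum_comm]
        refine Finset.sum_congr rfl fun l _ => ?_
        rw [Finset.sum_comm]
    _ ≤ ∑ l ∈ heavy A q, ∑ l' ∈ heavy A q, ((if l = l' then on A l else 0) + 1) := by
        refine Finset.sum_le_sum fun l hl => Finset.sum_le_sum fun l' hl' => ?_
        rw [← Finset.card_filter]
        by_cases h : l = l'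
        · subst h
          simp only [and_self, if_true]
          unfold on
          omega
        · simp only [h, if_false]
          have := V_inter A q l l' hl hl' h
          omega
    _ = ∑ a ∈ A, hd A q a + ((heavy A q).card) ^ 2 := by
        rw [← V_sum]
        simp only [Finset.sum_add_distrib, Finset.sum_const, smul_eq_mul, mul_one]
        rw [sq]
        congr 1
        refine Finset.sum_congr rfl fun l hl => ?_
        rw [Finset.sum_ite_eq]
        simp [hl]

theorem V_main (A : Finset ℂ) (K : ℝ) (hK : 2 ≤ K) :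
    ∑ l ∈ heavy A (K * Real.sqrt A.card), (on A l : ℝ) ≤ 3 / 2 * A.card ∧
    ((heavy A (K * Real.sqrt A.card)).card : ℝ) ^ 2 ≤ 9 / 4 / K ^ 2 * A.card := by
  set q := K * Real.sqrt A.card with hq
  set I : ℝ := ∑ l ∈ heavy A q, (on A l : ℝ) with hI
  set k : ℝ := ((heavy A q).card : ℝ) with hk
  set n : ℝ := (A.card : ℝ) with hn
  have hn0 : 0 ≤ n := Nat.cast_nonneg _
  have hk0 : 0 ≤ k := Nat.cast_nonneg _
  have hI0 : 0 ≤ I := Finset.sum_nonneg fun l _ => Nat.cast_nonneg _
  have hsum : I = ∑ a ∈ A, (hd A q a : ℝ) := by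
    have := V_sum A q
    rw [hI]
    exact_mod_cast this
  have hsq : ∑ a ∈ A, (hd A q a : ℝ) ^ 2 ≤ I + k ^ 2 := by
    have := V_sumsq A q
    rw [hsum, hk]
    exact_mod_cast this
  have hcs : I ^ 2 ≤ n * ∑ a ∈ A, (hd A q a : ℝ) ^ 2 := by
    rw [hsum]
    have := sq_sum_le_card_mul_sum_sq (s := A) (f := fun a => (hd A q a : ℝ))
    exact this
  have hkq : k * q ≤ I := by
    rw [hI, hk]
    have : ∀ l ∈ heavy A q, q ≤ (on A l : ℝ) := fun l hl => (Finset.mem_filter.mp hl).2
    calc ((heavy A q).card : ℝ) * q = ∑ l ∈ heavy A q, q := by simp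
      _ ≤ _ := Finset.sum_le_sum this
  have hK0 : 0 < K := by linarith
  have hq2 : q ^ 2 = K ^ 2 * n := by
    rw [hq, mul_pow, Real.sq_sqrt hn0]
  have hq0 : 0 ≤ q := by positivity
  have hkq2 : k ^ 2 * (K ^ 2 * n) ≤ I ^ 2 := by
    rw [← hq2, ← mul_pow]
    exact pow_le_pow_left₀ (by positivity) hkq 2
  have hK4 : 4 ≤ K ^ 2 := by nlinarith
  -- I^2 ≤ n I + n k^2, 4 n k^2 ≤ I^2
  have h4 : 4 * (n * k ^ 2) ≤ I ^ 2 := by
    have : 4 * (n * k ^ 2) ≤ K ^ 2 * (n * k ^ 2) := mul_le_mul_of_nonneg_right hK4 (by positivity)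
    nlinarith
  have h5 : I ^ 2 ≤ n * I + n * k ^ 2 := by
    calc I ^ 2 ≤ _ := hcs
      _ ≤ n * (I + k ^ 2) := mul_le_mul_of_nonneg_left hsq hn0
      _ = _ := by ring
  have h6 : I ≤ 3 / 2 * n := by
    by_contra h
    push Not at h
    have hIpos : 0 < I := lt_of_le_of_lt (by positivity) h
    nlinarith
  refine ⟨h6, ?_⟩
  rcases hn0.eq_or_lt with h0 | hpos
  · -- n = 0
    have hI00 : I = 0 := le_antisymm (by rw [← h0] at h6; simpa using h6) hI0
    have hA : A = ∅ := by
      have : (A.card : ℝ) = 0 := h0.symm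
      exact Finset.card_eq_zero.mp (by exact_mod_cast this)
    have : k = 0 := by
      rw [hk]
      simp [heavy, hA]
    rw [this, ← h0]; simp
  · have : k ^ 2 * (K ^ 2 * n) ≤ (3 / 2 * n) ^ 2 := hkq2.trans (pow_le_pow_left₀ hI0 h6 2)
    have h7 : k ^ 2 * K ^ 2 ≤ 9 / 4 * n := by
      have : (k ^ 2 * K ^ 2) * n ≤ (9 / 4 * n) * n := by nlinarith
      exact le_of_mul_le_mul_right this hpos
    rw [div_mul_eq_mul_div, le_div_iff₀ (by positivity)]
    exact h7

theorem heavy_sum (A : Finset ℂ) (K : ℝ) (hK : 2 ≤ K) :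
    ∑ l ∈ heavy A (K * Real.sqrt A.card), (on A l : ℝ) ≤ 3 * A.card := by
  have := (V_main A K hK).1
  have hn : (0:ℝ) ≤ A.card := Nat.cast_nonneg _
  linarith

theorem heavy_double (A : Finset ℂ) (K : ℝ) (hK : 2 ≤ K) :
    ((A.filter (fun c => 2 ≤ ((heavy A (K * Real.sqrt A.card)).filter (fun l => c ∈ l)).card)).card : ℝ)
      ≤ 10 / K ^ 2 * A.card := by
  set q := K * Real.sqrt A.card with hq
  have h1 : 2 * (A.filter (fun c => 2 ≤ ((heavy A q).filter (fun l => c ∈ l)).card)).card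
      + ∑ a ∈ A, hd A q a ≤ ∑ a ∈ A, (hd A q a) ^ 2 := by
    rw [Finset.card_filter, Finset.mul_sum, ← Finset.sum_add_distrib]
    refine Finset.sum_le_sum fun a _ => ?_
    change 2 * (if 2 ≤ hd A q a then 1 else 0) + hd A q a ≤ (hd A q a) ^ 2
    split_ifs with h
    · nlinarith
    · have : hd A q a = 0 ∨ hd A q a = 1 := by omega
      rcases this with h | h <;> rw [h] <;> norm_num
  have h2 := V_sumsq A q
  have h3 : 2 * (A.filter (fun c => 2 ≤ ((heavy A q).filter (fun l => c ∈ l)).card)).card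
      ≤ ((heavy A q).card) ^ 2 := by omega
  have h4 := (V_main A K hK).2
  rw [← hq] at h4
  have h5 : (2:ℝ) * ((A.filter (fun c => 2 ≤ ((heavy A q).filter (fun l => c ∈ l)).card)).card : ℝ)
      ≤ ((heavy A q).card : ℝ) ^ 2 := by exact_mod_cast h3
  have hn : (0:ℝ) ≤ A.card := Nat.cast_nonneg _
  have hK2 : 0 < K ^ 2 := by positivity
  have h6 : 9 / 4 / K ^ 2 * (A.card : ℝ) ≤ 10 / K ^ 2 * A.card := by
    apply mul_le_mul_of_nonneg_right _ hn
    apply div_le_div_of_nonneg_right _ hK2.le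
    norm_num
  have h7 : (0:ℝ) ≤ ((A.filter (fun c => 2 ≤ ((heavy A q).filter (fun l => c ∈ l)).card)).card : ℝ) :=
    Nat.cast_nonneg _
  linarith

end

end Pool.Agent.DD
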