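import Pool.Agent.Lib_helper8.QP.Defs

/-!
# Quasi-polynomial Aaronson-Ambainis, Block B : influences
-/

set_option autoImplicit false
set_option linter.unusedSectionVars false

open Finset Polynomial

namespace Pool.Agent.Lib_helper9.QP

open Pool.Agent.Lib_helper30.AA Pool.Agent.Lib_helper8.QP

variable {I : Type} [Fintype I] [DecidableEq I]

theorem sg_mul_self (b : Bool) : sg b * sg b = 1 := by cases b <;> simp [sg]

theorem abs_sg (b : Bool) : |sg b| = 1 := by cases b <;> simp [sg]

theorem av_mono {g h : (I → Bool) → ℝ} (hgh : ∀ x, g x ≤ h x) : av g ≤ av h := by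
  unfold av
  exact mul_le_mul_of_nonneg_left (Finset.sum_le_sum fun x _ => hgh x) (by positivity)

theorem av_nonneg {g : (I → Bool) → ℝ} (hg : ∀ x, 0 ≤ g x) : 0 ≤ av g := by
  unfold av
  exact mul_nonneg (by positivity) (Finset.sum_nonneg fun x _ => hg x)

theorem av_comp_flip (i : I) (g : (I → Bool) → ℝ) : av (fun x => g (flip i x)) = av g := by
  unfold av
  congr 1
  exact Equiv.sum_comp (flipEquiv i) g

theorem D_eq (j : I) (f : (I → Bool) → ℝ) (x : I → Bool) :
    D j f x = sg (x j) * ((f x - f (flip j x)) / 2) := by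
  unfold D Lib_helper30.AA.flip sg
  have h : Function.update x j (x j) = x := Function.update_eq_self j x
  cases hx : x j
  · rw [hx] at h
    rw [h]; simp
  · rw [hx] at h
    rw [h]; simp; ring

theorem D_sq (j : I) (f : (I → Bool) → ℝ) (x : I → Bool) :
    D j f x ^ 2 = ((f x - f (flip j x)) / 2) ^ 2 := by
  rw [D_eq, mul_pow, sq (sg (x j)), sg_mul_self, one_mul]

theorem D_flip_self (j : I) (f : (I → Bool) → ℝ) (x : I → Bool) : D j f (flip j x) = D j f x := by
  unfold D Lib_helper30.AA.flip
  simp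

theorem inf_eq (f : (I → Bool) → ℝ) (j : I) :
    inf f j = ∑ S ∈ (Finset.univ : Finset (Finset I)).filter (fun S => j ∈ S), coef f S ^ 2 := by
  rw [← influence_eq]
  unfold Lib_helper8.QP.inf av
  congr 1
  refine Finset.sum_congr rfl fun x _ => ?_
  exact D_sq j f x

theorem inf_nonneg (f : (I → Bool) → ℝ) (j : I) : 0 ≤ inf f j := av_nonneg fun _ => sq_nonneg _

theorem sg_chi_of_notMem {S : Finset I} {j : I} (hj : j ∉ S) (x : I → Bool) :
    sg (x j) * chi S x = chi (insert j S) x := by
  unfold chi sg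
  rw [Finset.prod_insert hj]

theorem sg_chi_of_mem {S : Finset I} {j : I} (hj : j ∈ S) (x : I → Bool) :
    sg (x j) * chi S x = chi (S.erase j) x := by
  have h := sg_chi_of_notMem (Finset.notMem_erase j S) x
  rw [Finset.insert_erase hj] at h
  rw [← h, ← mul_assoc, sg_mul_self, one_mul]

theorem coef_half_sub_flip (f : (I → Bool) → ℝ) (j : I) (S : Finset I) :
    coef (fun x => (f x - f (flip j x)) / 2) S = if j ∈ S then coef f S else 0 := by
  have h2 : coef (fun x => (f x - f (flip j x)) / 2) S =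
      (coef f S - coef (fun x => f (flip j x)) S) / 2 := by
    unfold coef
    rw [← mul_sub, ← Finset.sum_sub_distrib, mul_div_assoc, Finset.sum_div]
    congr 1
    refine Finset.sum_congr rfl fun x _ => ?_
    ring
  rw [h2, coef_comp_flip]
  split_ifs <;> ring

theorem coef_D (f : (I → Bool) → ℝ) (j : I) (S : Finset I) :
    coef (D j f) S = if j ∈ S then 0 else coef f (insert j S) := by
  have h1 : coef (D j f) S = ((2 : ℝ) ^ (Fintype.card I))⁻¹ *
      ∑ x : I → Bool, ((f x - f (flip j x)) / 2) * (sg (x j) * chi S x) := by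
    unfold coef
    congr 1
    refine Finset.sum_congr rfl fun x _ => ?_
    rw [D_eq]; ring
  rw [h1]
  split_ifs with hj
  · simp_rw [sg_chi_of_mem hj]
    have := coef_half_sub_flip f j (S.erase j)
    rw [if_neg (Finset.notMem_erase j S)] at this
    exact this
  · simp_rw [sg_chi_of_notMem hj]
    have := coef_half_sub_flip f j (insert j S)
    rw [if_pos (Finset.mem_insert_self j S)] at this
    exact this

/-- `E |D_i D_j f|^2` -/
theorem inf_D_eq (f : (I → Bool) → ℝ) {i j : I} (hij : i ≠ j) :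
    inf (D j f) i = ∑ S ∈ (Finset.univ : Finset (Finset I)).filter (fun S => i ∈ S ∧ j ∈ S),
      coef f S ^ 2 := by
  rw [inf_eq]
  simp_rw [coef_D]
  have h1 : ∑ S ∈ (Finset.univ : Finset (Finset I)).filter (fun S => i ∈ S),
      (if j ∈ S then 0 else coef f (insert j S)) ^ 2 =
      ∑ S ∈ (Finset.univ : Finset (Finset I)).filter (fun S => i ∈ S ∧ j ∉ S),
        coef f (insert j S) ^ 2 := by
    rw [Finset.sum_filter, Finset.sum_filter]
    refine Finset.sum_congr rfl fun S _ => ?_
    by_cases h : i ∈ S <;> by_cases h' : j ∈ S <;> simp [h, h']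
  rw [h1]
  refine Finset.sum_bij' (fun S _ => insert j S) (fun S _ => S.erase j) ?_ ?_ ?_ ?_ ?_
  · intro S hS
    simp only [Finset.mem_filter, Finset.mem_univ, true_and] at hS ⊢
    exact ⟨Finset.mem_insert_of_mem hS.1, Finset.mem_insert_self _ _⟩
  · intro S hS
    simp only [Finset.mem_filter, Finset.mem_univ, true_and] at hS ⊢
    exact ⟨Finset.mem_erase.mpr ⟨hij, hS.1⟩, Finset.notMem_erase _ _⟩
  · intro S hS
    simp only [Finset.mem_filter, Finset.mem_univ, true_and] at hS
    exact Finset.erase_insert hS.2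
  · intro S hS
    simp only [Finset.mem_filter, Finset.mem_univ, true_and] at hS
    exact Finset.insert_erase hS.2
  · intro S _
    rfl

theorem inf_D_self (f : (I → Bool) → ℝ) (j : I) : inf (D j f) j = 0 := by
  unfold Lib_helper8.QP.inf av
  have : ∀ x : I → Bool, D j (D j f) x ^ 2 = 0 := by
    intro x
    rw [D_eq, D_flip_self]; simp
  simp [this]

/-- `E |D_i D_j f|^2` is bounded by the weight on the sets containing both -/
theorem inf_D_le (f : (I → Bool) → ℝ) (i j : I) :
    inf (D j f) i ≤ ∑ S : Finset I, if i ∈ S ∧ j ∈ S then coef f S ^ 2 else 0 := by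
  by_cases hij : i = j
  · subst hij
    rw [inf_D_self]
    exact Finset.sum_nonneg fun S _ => by split_ifs <;> positivity
  · rw [inf_D_eq f hij, Finset.sum_filter]

theorem abs_vv_le (f : (I → Bool) → ℝ) (i j : I) : |vv f i j| ≤ inf f j := by
  unfold vv Lib_helper8.QP.inf
  rw [abs_le]
  constructor
  · have : -av (fun x => D j f x ^ 2) = av (fun x => -(D j f x ^ 2)) := by
      unfold av
      rw [Finset.sum_neg_distrib]; ring
    rw [this]
    refine av_mono fun x => ?_
    have h1 := (abs_le.mp (abs_sg (x i)).le).1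
    nlinarith [sq_nonneg (D j f x)]
  · refine av_mono fun x => ?_
    have h1 := (abs_le.mp (abs_sg (x i)).le).2
    nlinarith [sq_nonneg (D j f x)]

theorem sg_flip (i : I) (x : I → Bool) : sg (flip i x i) = - sg (x i) := by
  unfold sg Lib_helper30.AA.flip
  rw [Function.update_self]
  exact sign_mul_not _

/-- symmetrisation -/
theorem vv_eq (f : (I → Bool) → ℝ) (i j : I) :
    vv f i j = av (fun x => D i (D j f) x * (D j f x + D j f (flip i x))) := by
  have h1 : vv f i j = (vv f i j + vv f i j) / 2 := by ring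
  have h2 : vv f i j = av (fun x => - (sg (x i) * D j f (flip i x) ^ 2)) := by
    unfold vv
    rw [← av_comp_flip i]
    congr 1
    funext x
    rw [sg_flip]; ring
  rw [h1]
  conv_lhs => rw [h2]
  nth_rewrite 2 [← h2]
  have h3 : ∀ x, D i (D j f) x * (D j f x + D j f (flip i x)) =
      (sg (x i) * D j f x ^ 2 + - (sg (x i) * D j f (flip i x) ^ 2)) / 2 := by
    intro x
    rw [D_eq i (D j f) x]; ring
  simp_rw [h3]
  unfold vv av
  rw [← Finset.sum_div, Finset.sum_add_distrib]
  ring

theorem vv_self (f : (I → Bool) → ℝ) (j : I) : vv f j j = 0 := by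
  rw [vv_eq]
  have : ∀ x : I → Bool, D j (D j f) x = 0 := by
    intro x
    rw [D_eq, D_flip_self]; simp
  simp [this, av]

theorem av_cs (g h : (I → Bool) → ℝ) :
    av (fun x => g x * h x) ^ 2 ≤ av (fun x => g x ^ 2) * av (fun x => h x ^ 2) := by
  unfold av
  have := Finset.sum_mul_sq_le_sq_mul_sq (Finset.univ : Finset (I → Bool)) g h
  calc _ = (((2:ℝ) ^ Fintype.card I)⁻¹) ^ 2 * (∑ x : I → Bool, g x * h x) ^ 2 := by ring
    _ ≤ (((2:ℝ) ^ Fintype.card I)⁻¹) ^ 2 * ((∑ x : I → Bool, g x ^ 2) * ∑ x : I → Bool, h x ^ 2) :=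
        mul_le_mul_of_nonneg_left this (by positivity)
    _ = _ := by ring

/-- the refined inequality `v_{ij}^2 ≤ 4 m_j e_{ij}` -/
theorem vv_sq_le' (f : (I → Bool) → ℝ) (i j : I) :
    vv f i j ^ 2 ≤ 4 * inf f j * inf (D j f) i := by
  rw [vv_eq]
  refine (av_cs _ _).trans ?_
  have h1 : av (fun x => (D j f x + D j f (flip i x)) ^ 2) ≤ 4 * inf f j := by
    have h2 : av (fun x => D j f (flip i x) ^ 2) = inf f j := av_comp_flip i (fun x => D j f x ^ 2)
    calc av (fun x => (D j f x + D j f (flip i x)) ^ 2)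
        ≤ av (fun x => 2 * D j f x ^ 2 + 2 * D j f (flip i x) ^ 2) := by
          refine av_mono fun x => ?_
          nlinarith [sq_nonneg (D j f x - D j f (flip i x))]
      _ = 2 * inf f j + 2 * av (fun x => D j f (flip i x) ^ 2) := by
          unfold Lib_helper8.QP.inf av
          rw [Finset.sum_add_distrib, ← Finset.mul_sum, ← Finset.mul_sum]
          ring
      _ = 4 * inf f j := by rw [h2]; ring
  have h3 : 0 ≤ inf (D j f) i := inf_nonneg _ _
  calc av (fun x => D i (D j f) x ^ 2) * av (fun x => (D j f x + D j f (flip i x)) ^ 2)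
      ≤ inf (D j f) i * (4 * inf f j) := mul_le_mul_of_nonneg_left h1 h3
    _ = _ := by ring

theorem inf_D_le_inf (f : (I → Bool) → ℝ) (i j : I) : inf (D j f) i ≤ inf f i := by
  refine (inf_D_le f i j).trans ?_
  rw [inf_eq, Finset.sum_filter]
  refine Finset.sum_le_sum fun S _ => ?_
  by_cases h : i ∈ S <;> by_cases h' : j ∈ S <;> simp [h, h']
  positivity

theorem vv_sq_le (f : (I → Bool) → ℝ) (i j : I) : vv f i j ^ 2 ≤ 4 * inf f j * inf f i := by
  refine (vv_sq_le' f i j).trans ?_
  have := inf_D_le_inf f i j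
  exact mul_le_mul_of_nonneg_left this (by have := inf_nonneg f j; positivity)

theorem sum_card_le {d : ℕ} {f : (I → Bool) → ℝ} (hd : LowDeg d f) (S : Finset I) :
    (S.card : ℝ) * coef f S ^ 2 ≤ d * coef f S ^ 2 := by
  by_cases h : d < S.card
  · rw [hd S h]; simp
  · push Not at h
    exact mul_le_mul_of_nonneg_right (by exact_mod_cast h) (sq_nonneg _)

theorem sum_inf_le {d : ℕ} {f : (I → Bool) → ℝ} (hf : ∀ x, |f x| ≤ 1) (hd : LowDeg d f) :
    ∑ j, inf f j ≤ d := by
  calc ∑ j, inf f j = ∑ j, ∑ S : Finset I, if j ∈ S then coef f S ^ 2 else 0 := by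
        refine Finset.sum_congr rfl fun j _ => ?_
        rw [inf_eq, Finset.sum_filter]
    _ = ∑ S : Finset I, ∑ j, if j ∈ S then coef f S ^ 2 else 0 := Finset.sum_comm
    _ = ∑ S : Finset I, (S.card : ℝ) * coef f S ^ 2 := by
        refine Finset.sum_congr rfl fun S _ => ?_
        rw [← Finset.sum_filter, Finset.sum_const, nsmul_eq_mul]
        simp
    _ ≤ ∑ S : Finset I, (d : ℝ) * coef f S ^ 2 := Finset.sum_le_sum fun S _ => sum_card_le hd S
    _ = d * ∑ S : Finset I, coef f S ^ 2 := by rw [Finset.mul_sum]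
    _ ≤ d * 1 ^ 2 := mul_le_mul_of_nonneg_left (sum_coef_sq_le hf _) (Nat.cast_nonneg _)
    _ = d := by ring

/-- `∑_j e_{ij} ≤ d m_i`, both ways -/
theorem sum_pair_le {d : ℕ} {f : (I → Bool) → ℝ} (hd : LowDeg d f) (i : I) :
    ∑ j, (∑ S : Finset I, if i ∈ S ∧ j ∈ S then coef f S ^ 2 else 0) ≤ d * inf f i := by
  rw [Finset.sum_comm]
  calc ∑ S : Finset I, ∑ j, (if i ∈ S ∧ j ∈ S then coef f S ^ 2 else 0)
      = ∑ S : Finset I, if i ∈ S then (S.card : ℝ) * coef f S ^ 2 else 0 := by
        refine Finset.sum_congr rfl fun S _ => ?_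
        by_cases h : i ∈ S
        · simp only [h, true_and, if_true]
          rw [← Finset.sum_filter, Finset.sum_const, nsmul_eq_mul]
          simp
        · simp [h]
    _ ≤ ∑ S : Finset I, if i ∈ S then (d : ℝ) * coef f S ^ 2 else 0 := by
        refine Finset.sum_le_sum fun S _ => ?_
        split_ifs
        · exact sum_card_le hd S
        · exact le_refl _
    _ = d * inf f i := by
        rw [inf_eq, Finset.sum_filter, Finset.mul_sum]
        refine Finset.sum_congr rfl fun S _ => ?_
        split_ifs <;> simp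

theorem sum_vv_sq_div_le {d : ℕ} {f : (I → Bool) → ℝ} (hd : LowDeg d f) (i : I) :
    ∑ j, vv f i j ^ 2 / inf f j ≤ 4 * d * inf f i := by
  calc ∑ j, vv f i j ^ 2 / inf f j ≤ ∑ j, 4 * inf (D j f) i := by
        refine Finset.sum_le_sum fun j _ => ?_
        have h0 := inf_nonneg f j
        have h1 := inf_nonneg (D j f) i
        rcases h0.eq_or_lt with h | h
        · rw [← h, div_zero]; positivity
        · rw [div_le_iff₀ h]
          have := vv_sq_le' f i j
          linarith
    _ ≤ ∑ j, 4 * (∑ S : Finset I, if i ∈ S ∧ j ∈ S then coef f S ^ 2 else 0) :=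
        Finset.sum_le_sum fun j _ => by
          have := inf_D_le f i j
          linarith
    _ = 4 * ∑ j, (∑ S : Finset I, if i ∈ S ∧ j ∈ S then coef f S ^ 2 else 0) := by
        rw [Finset.mul_sum]
    _ ≤ 4 * (d * inf f i) := by
        have := sum_pair_le hd i
        linarith
    _ = _ := by ring

theorem sum_vv_sq_le {d : ℕ} {f : (I → Bool) → ℝ} (hd : LowDeg d f) (j : I) :
    ∑ i, vv f i j ^ 2 ≤ 4 * d * inf f j ^ 2 := by
  have h0 := inf_nonneg f j
  calc ∑ i, vv f i j ^ 2 ≤ ∑ i, 4 * inf f j *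
        (∑ S : Finset I, if j ∈ S ∧ i ∈ S then coef f S ^ 2 else 0) := by
        refine Finset.sum_le_sum fun i _ => ?_
        refine (vv_sq_le' f i j).trans (mul_le_mul_of_nonneg_left ?_ (by positivity))
        have := inf_D_le f i j
        simpa [and_comm] using this
    _ = 4 * inf f j * ∑ i, (∑ S : Finset I, if j ∈ S ∧ i ∈ S then coef f S ^ 2 else 0) := by
        rw [Finset.mul_sum]
    _ ≤ 4 * inf f j * (d * inf f j) := mul_le_mul_of_nonneg_left (sum_pair_le hd j) (by positivity)
    _ = _ := by ring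

end Pool.Agent.Lib_helper9.QP
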