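import Mathlib

/-!
# Stern polynomials: definitions

`B_n(t) = ∑_l h(n-1,l) t^l`, where `h(m,l)` counts the hyperbinary representations of `m`
in which exactly `l` digits are equal to `1`.
-/

open Polynomial

namespace Pool.Agent.Lib_helper9.Stern

/-- The set of hyperbinary representations of `m` (finitely supported digit functions
`d : ℕ →₀ ℕ` with all digits in `{0,1,2}` and `∑ d_i 2^i = m`) in which exactly `l` digits are
equal to `1`. -/
def hyperbinary (m l : ℕ) : Set (ℕ →₀ ℕ) :=
  {d | (∀ i, d i ≤ 2) ∧ (d.sum fun i c => c * 2 ^ i) = m ∧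
    (d.support.filter fun i => d i = 1).card = l}

/-- `h m l` is the number of hyperbinary representations of `m` with exactly `l` digits `1`. -/
noncomputable def h (m l : ℕ) : ℕ := (hyperbinary m l).ncard

/-- The `n`-th Stern polynomial `B_n(t) = ∑_{l ≥ 0} h(n-1,l) t^l` (`B_0 = 0`).  A representation
of `n - 1` has at most `n - 1` digits equal to `1`, so the sum over `l < n` is the full sum. -/
noncomputable def B (n : ℕ) : ℤ[X] :=
  ∑ l ∈ Finset.range n, C (h (n - 1) l : ℤ) * X ^ l

end Pool.Agent.Lib_helper9.Stern
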