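import Mathlib
import Pool.Agent.Lib_helper9.SternDefs

open Polynomial

namespace Pool.Agent.Lib_helper9.Stern

/-! ### Splitting off the lowest digit -/

/-- prepend the lowest digit `c` -/
noncomputable def cns (c : ℕ) (d : ℕ →₀ ℕ) : ℕ →₀ ℕ :=
  Finsupp.single 0 c + Finsupp.embDomain ⟨Nat.succ, Nat.succ_injective⟩ d

/-- remove the lowest digit -/
noncomputable def tl (d : ℕ →₀ ℕ) : ℕ →₀ ℕ :=
  Finsupp.comapDomain Nat.succ d (Nat.succ_injective.injOn)

lemma cns_zero (c : ℕ) (d : ℕ →₀ ℕ) : cns c d 0 = c := by
  simp only [cns, Finsupp.add_apply, Finsupp.single_eq_same]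
  rw [Finsupp.embDomain_of_notMem_range]
  · simp
  · simp

lemma cns_succ (c : ℕ) (d : ℕ →₀ ℕ) (i : ℕ) : cns c d (i + 1) = d i := by
  simp only [cns, Finsupp.add_apply]
  have : Finsupp.embDomain ⟨Nat.succ, Nat.succ_injective⟩ d (i + 1) = d i :=
    Finsupp.embDomain_apply_self ⟨Nat.succ, Nat.succ_injective⟩ d i
  rw [this]
  simp

lemma tl_apply (d : ℕ →₀ ℕ) (i : ℕ) : tl d i = d (i + 1) := by
  simp [tl, Finsupp.comapDomain_apply]

lemma cns_tl (d : ℕ →₀ ℕ) : cns (d 0) (tl d) = d := by
  ext i
  cases i with
  | zero => exact cns_zero _ _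
  | succ i => rw [cns_succ, tl_apply]

lemma cns_injective (c : ℕ) : Function.Injective (cns c) := by
  intro d d' hdd
  ext i
  have := congrArg (fun f => f (i + 1)) hdd
  simpa [cns_succ] using this

/-- the value `∑ d_i 2^i` -/
noncomputable def val (d : ℕ →₀ ℕ) : ℕ := d.sum fun i c => c * 2 ^ i

/-- the number of digits equal to `1` -/
noncomputable def ones (d : ℕ →₀ ℕ) : ℕ := (d.support.filter fun i => d i = 1).card

lemma val_cns (c : ℕ) (d : ℕ →₀ ℕ) : val (cns c d) = c + 2 * val d := by
  unfold val cns
  rw [Finsupp.sum_add_index' (by simp) (by intros; ring)]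
  rw [Finsupp.sum_single_index (by simp), Finsupp.sum_embDomain]
  simp only [Function.Embedding.coeFn_mk, Finsupp.sum, Finset.mul_sum, pow_zero, mul_one]
  congr 1
  apply Finset.sum_congr rfl
  intro i _
  rw [Nat.succ_eq_add_one, pow_succ]; ring

lemma ones_cns (c : ℕ) (d : ℕ →₀ ℕ) : ones (cns c d) = (if c = 1 then 1 else 0) + ones d := by
  have key : (cns c d).support.filter (fun i => cns c d i = 1) =
      (if c = 1 then {0} else ∅) ∪
        (d.support.filter fun i => d i = 1).map ⟨Nat.succ, Nat.succ_injective⟩ := by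
    ext i
    cases i with
    | zero =>
      by_cases hc : c = 1 <;> simp [cns_zero, hc]
    | succ i =>
      by_cases hc : c = 1 <;> simp [cns_succ, hc]
  unfold ones
  rw [key, Finset.card_union_of_disjoint]
  · by_cases hc : c = 1 <;> simp [hc]
  · by_cases hc : c = 1 <;> simp [hc]

lemma mem_hyperbinary {m l : ℕ} {d : ℕ →₀ ℕ} :
    d ∈ hyperbinary m l ↔ (∀ i, d i ≤ 2) ∧ val d = m ∧ ones d = l := Iff.rfl

lemma cns_mem {m l c : ℕ} {d : ℕ →₀ ℕ} :
    cns c d ∈ hyperbinary m l ↔
      c ≤ 2 ∧ (∀ i, d i ≤ 2) ∧ c + 2 * val d = m ∧ (if c = 1 then 1 else 0) + ones d = l := by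
  rw [mem_hyperbinary, val_cns, ones_cns]
  constructor
  · rintro ⟨h1, h2, h3⟩
    refine ⟨?_, ?_, h2, h3⟩
    · simpa [cns_zero] using h1 0
    · intro i; simpa [cns_succ] using h1 (i + 1)
  · rintro ⟨h0, h1, h2, h3⟩
    refine ⟨?_, h2, h3⟩
    intro i
    cases i with
    | zero => rw [cns_zero]; exact h0
    | succ i => rw [cns_succ]; exact h1 i

lemma ones_le_val (d : ℕ →₀ ℕ) : ones d ≤ val d := by
  unfold ones val
  rw [Finset.card_eq_sum_ones, Finsupp.sum]
  calc ∑ i ∈ d.support.filter (fun i => d i = 1), 1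
      ≤ ∑ i ∈ d.support.filter (fun i => d i = 1), d i * 2 ^ i := by
        apply Finset.sum_le_sum
        intro i hi
        rw [(Finset.mem_filter.mp hi).2, one_mul]
        exact Nat.one_le_two_pow
    _ ≤ ∑ i ∈ d.support, d i * 2 ^ i :=
        Finset.sum_le_sum_of_subset (Finset.filter_subset _ _)

/-- A representation of `m` has at most `m` ones, so `h m l = 0` for `l > m`. -/
lemma h_eq_zero {m l : ℕ} (hl : m < l) : h m l = 0 := by
  have : hyperbinary m l = ∅ := by
    ext d
    simp only [Set.mem_empty_iff_false, iff_false]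
    rintro ⟨_, h2, h3⟩
    have := ones_le_val d
    unfold ones val at this
    omega
  rw [h, this, Set.ncard_empty]

lemma hyperbinary_zero (l : ℕ) : hyperbinary 0 l = if l = 0 then {0} else ∅ := by
  ext d
  rw [mem_hyperbinary]
  constructor
  · rintro ⟨_, h2, h3⟩
    have hd : d = 0 := by
      unfold val at h2
      rw [Finsupp.sum, Finset.sum_eq_zero_iff] at h2
      ext i
      by_contra hi
      have := h2 i (by simpa using hi)
      simp at this
      exact hi this
    subst hd
    have : l = 0 := by rw [← h3]; simp [ones]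
    simp [this]
  · intro hd
    split_ifs at hd with hl
    · have : d = 0 := by simpa using hd
      subst this
      simp [val, ones, hl]
    · simp at hd

lemma hyperbinary_odd_zero (m : ℕ) : hyperbinary (2 * m + 1) 0 = ∅ := by
  ext d
  simp only [Set.mem_empty_iff_false, iff_false]
  rw [← cns_tl d, cns_mem]
  rintro ⟨h0, h1, h2, h3⟩
  have h4 : d 0 = 1 := by omega
  rw [if_pos h4] at h3
  omega

lemma hyperbinary_odd (m l : ℕ) :
    hyperbinary (2 * m + 1) (l + 1) = cns 1 '' hyperbinary m l := by
  ext d
  constructor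
  · intro hd
    rw [← cns_tl d, cns_mem] at hd
    obtain ⟨h0, h1, h2, h3⟩ := hd
    have h4 : d 0 = 1 := by omega
    rw [if_pos h4] at h3
    refine ⟨tl d, mem_hyperbinary.mpr ⟨h1, by omega, by omega⟩, ?_⟩
    rw [← h4, cns_tl]
  · rintro ⟨e, he, rfl⟩
    obtain ⟨h1, h2, h3⟩ := mem_hyperbinary.mp he
    rw [cns_mem]
    refine ⟨by omega, h1, by omega, ?_⟩
    rw [if_pos rfl]; omega

lemma hyperbinary_even (m l : ℕ) :
    hyperbinary (2 * m + 2) l = cns 0 '' hyperbinary (m + 1) l ∪ cns 2 '' hyperbinary m l := by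
  ext d
  constructor
  · intro hd
    rw [← cns_tl d, cns_mem] at hd
    obtain ⟨h0, h1, h2, h3⟩ := hd
    have h5 : d 0 ≠ 1 := by omega
    rw [if_neg h5] at h3
    have h4 : d 0 = 0 ∨ d 0 = 2 := by omega
    rcases h4 with h4 | h4
    · left
      refine ⟨tl d, mem_hyperbinary.mpr ⟨h1, by omega, by omega⟩, ?_⟩
      rw [← h4, cns_tl]
    · right
      refine ⟨tl d, mem_hyperbinary.mpr ⟨h1, by omega, by omega⟩, ?_⟩
      rw [← h4, cns_tl]
  · rintro (⟨e, he, rfl⟩ | ⟨e, he, rfl⟩)
    · obtain ⟨h1, h2, h3⟩ := mem_hyperbinary.mp he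
      rw [cns_mem]
      refine ⟨by omega, h1, by omega, ?_⟩
      rw [if_neg (by omega)]; omega
    · obtain ⟨h1, h2, h3⟩ := mem_hyperbinary.mp he
      rw [cns_mem]
      refine ⟨by omega, h1, by omega, ?_⟩
      rw [if_neg (by omega)]; omega

lemma hyperbinary_finite (m : ℕ) : ∀ l, (hyperbinary m l).Finite := by
  induction m using Nat.strong_induction_on with
  | _ m ih =>
    intro l
    obtain ⟨k, hk⟩ := Nat.even_or_odd' m
    rcases hk with hk | hk
    · rcases Nat.eq_zero_or_pos k with rfl | hkpos
      · have : m = 0 := by omega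
        subst this
        rw [hyperbinary_zero]
        split_ifs <;> simp
      · obtain ⟨j, rfl⟩ : ∃ j, k = j + 1 := ⟨k - 1, by omega⟩
        have hm : m = 2 * j + 2 := by omega
        rw [hm, hyperbinary_even]
        exact ((ih (j + 1) (by omega) l).image _).union ((ih j (by omega) l).image _)
    · cases l with
      | zero => rw [hk, hyperbinary_odd_zero]; exact Set.finite_empty
      | succ l =>
        rw [hk, hyperbinary_odd]
        exact (ih k (by omega) l).image _

lemma h_zero_zero : h 0 0 = 1 := by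
  rw [h, hyperbinary_zero, if_pos rfl, Set.ncard_singleton]

lemma h_odd_zero (m : ℕ) : h (2 * m + 1) 0 = 0 := by
  rw [h, hyperbinary_odd_zero, Set.ncard_empty]

lemma h_odd (m l : ℕ) : h (2 * m + 1) (l + 1) = h m l := by
  rw [h, hyperbinary_odd, Set.ncard_image_of_injective _ (cns_injective 1), h]

lemma h_even (m l : ℕ) : h (2 * m + 2) l = h (m + 1) l + h m l := by
  have hdisj : Disjoint (cns 0 '' hyperbinary (m + 1) l) (cns 2 '' hyperbinary m l) := by
    rw [Set.disjoint_left]
    rintro d ⟨e, _, rfl⟩ ⟨e', _, he'⟩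
    have := congrArg (fun f => f 0) he'
    simp [cns_zero] at this
  rw [h, hyperbinary_even, Set.ncard_union_eq hdisj ((hyperbinary_finite _ _).image _)
    ((hyperbinary_finite _ _).image _), Set.ncard_image_of_injective _ (cns_injective 0),
    Set.ncard_image_of_injective _ (cns_injective 2), h, h]

/-! ### The usual recursion -/

lemma B_zero : B 0 = 0 := by simp [B]

lemma coeff_B (n l : ℕ) : (B (n + 1)).coeff l = (h n l : ℤ) := by
  unfold B
  rw [finsetSum_coeff]
  simp only [coeff_C_mul, coeff_X_pow, Nat.add_sub_cancel]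
  by_cases hl : l < n + 1
  · rw [Finset.sum_eq_single l]
    · simp
    · intro b _ hb; simp [Ne.symm hb]
    · intro hl'; exact absurd (Finset.mem_range.mpr hl) hl'
  · rw [Finset.sum_eq_zero]
    · rw [h_eq_zero (by omega)]; simp
    · intro b hb
      have : l ≠ b := by rw [Finset.mem_range] at hb; omega
      simp [this]

lemma B_one : B 1 = 1 := by
  ext l
  rw [show (1 : ℕ) = 0 + 1 from rfl, coeff_B, coeff_one]
  by_cases hl : l = 0
  · subst hl; simp [h_zero_zero]
  · rw [h_eq_zero (by omega)]; simp [hl]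

lemma B_even (n : ℕ) : B (2 * n) = X * B n := by
  cases n with
  | zero => simp [B_zero]
  | succ n =>
    ext l
    rw [show 2 * (n + 1) = (2 * n + 1) + 1 by ring, coeff_B]
    cases l with
    | zero => rw [h_odd_zero]; simp
    | succ l => rw [h_odd, coeff_X_mul, coeff_B]

lemma B_odd (n : ℕ) : B (2 * n + 1) = B n + B (n + 1) := by
  cases n with
  | zero => simp [B_zero, B_one]
  | succ n =>
    ext l
    rw [show 2 * (n + 1) + 1 = (2 * n + 2) + 1 by ring, coeff_B, h_even, coeff_add, coeff_B,
      coeff_B]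
    push_cast; ring

/-! ### Values at rational numbers -/

/-- the value `B_n(a)` -/
noncomputable def b (a : ℚ) (n : ℕ) : ℚ := aeval a (B n)

lemma b_zero (a : ℚ) : b a 0 = 0 := by simp [b, B_zero]
lemma b_one (a : ℚ) : b a 1 = 1 := by simp [b, B_one]
lemma b_even (a : ℚ) (n : ℕ) : b a (2 * n) = a * b a n := by simp [b, B_even]
lemma b_odd (a : ℚ) (n : ℕ) : b a (2 * n + 1) = b a n + b a (n + 1) := by simp [b, B_odd]

/-- For `-1/4 ≤ a < 0` the quotient `B_n(a) / B_{n+1}(a)` never lies in `(-2, -1/2)`, and
`B_{n+1}(a) ≠ 0`. -/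
lemma quotient_bound (a : ℚ) (h1 : -1 / 4 ≤ a) (h2 : a < 0) (n : ℕ) :
    b a (n + 1) ≠ 0 ∧ (b a n / b a (n + 1) ≤ -2 ∨ -1 / 2 ≤ b a n / b a (n + 1)) := by
  induction n using Nat.strong_induction_on with
  | _ n ih =>
    obtain ⟨k, hk⟩ := Nat.even_or_odd' n
    rcases hk with hk | hk
    · -- `n = 2k`
      rcases Nat.eq_zero_or_pos k with rfl | hkpos
      · have : n = 0 := by omega
        subst this
        simp [b_zero, b_one]
        norm_num
      · obtain ⟨hne, hq⟩ := ih k (by omega)
        set r := b a k / b a (k + 1) with hr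
        have hbk : b a k = r * b a (k + 1) := by rw [hr]; field_simp
        have hnum : b a n = a * b a k := by rw [hk, b_even]
        have hden : b a (n + 1) = b a (k + 1) * (1 + r) := by
          rw [hk, b_odd, hbk]; ring
        have h1r : 1 + r ≠ 0 := by
          intro h0
          rcases hq with hq | hq <;> linarith
        have hden0 : b a (n + 1) ≠ 0 := by
          rw [hden]; exact mul_ne_zero hne h1r
        refine ⟨hden0, ?_⟩
        have hquot : b a n / b a (n + 1) = a * r / (1 + r) := by
          rw [hnum, hden, hbk]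
          field_simp
        rw [hquot]
        right
        rcases hq with hq | hq
        · -- `r ≤ -2`
          have hneg : 1 + r < 0 := by linarith
          rw [le_div_iff_of_neg hneg]
          nlinarith
        · have hpos : 0 < 1 + r := by linarith
          rw [le_div_iff₀ hpos]
          nlinarith
    · -- `n = 2k+1`
      obtain ⟨hne, hq⟩ := ih k (by omega)
      set r := b a k / b a (k + 1) with hr
      have hbk : b a k = r * b a (k + 1) := by rw [hr]; field_simp
      have hnum : b a n = b a (k + 1) * (1 + r) := by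
        rw [hk, b_odd, hbk]; ring
      have hden : b a (n + 1) = a * b a (k + 1) := by
        rw [hk, show 2 * k + 1 + 1 = 2 * (k + 1) by ring, b_even]
      have ha0 : a ≠ 0 := ne_of_lt h2
      have hden0 : b a (n + 1) ≠ 0 := by
        rw [hden]; exact mul_ne_zero ha0 hne
      refine ⟨hden0, ?_⟩
      have hquot : b a n / b a (n + 1) = (1 + r) / a := by
        rw [hnum, hden]
        field_simp
      rw [hquot]
      rcases hq with hq | hq
      · right
        rw [le_div_iff_of_neg h2]
        linarith
      · left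
        rw [div_le_iff_of_neg h2]
        linarith

lemma b_pos (a : ℚ) (ha : 0 < a) (n : ℕ) : 1 ≤ n → 0 < b a n := by
  induction n using Nat.strong_induction_on with
  | _ n ih =>
    intro hn
    obtain ⟨k, hk⟩ := Nat.even_or_odd' n
    rcases hk with hk | hk
    · rw [hk, b_even]
      exact mul_pos ha (ih k (by omega) (by omega))
    · rcases Nat.eq_zero_or_pos k with rfl | hkpos
      · rw [hk]; simp [b_one]
      · rw [hk, b_odd]
        exact add_pos (ih k (by omega) hkpos) (ih (k + 1) (by omega) (by omega))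

/-- the constant coefficient of `B_n` is `0` for even `n` and `1` for odd `n` -/
lemma coeff_zero_B (n : ℕ) :
    (B (2 * n)).coeff 0 = 0 ∧ (B (2 * n + 1)).coeff 0 = 1 := by
  induction n using Nat.strong_induction_on with
  | _ n ih =>
    refine ⟨by rw [B_even]; simp, ?_⟩
    rw [B_odd, coeff_add]
    obtain ⟨k, hk⟩ := Nat.even_or_odd' n
    rcases hk with hk | hk
    · rcases Nat.eq_zero_or_pos k with rfl | hkpos
      · have : n = 0 := by omega
        subst this
        simp [B_zero, B_one]
      · have e := ih k (by omega)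
        rw [hk, e.1, e.2]; norm_num
    · have e := ih k (by omega)
      have : (B (n + 1)).coeff 0 = 0 := by
        rw [hk, show 2 * k + 1 + 1 = 2 * (k + 1) by ring, B_even]; simp
      rw [this, hk, e.2]; norm_num

/-- A nonzero rational root of `B_n` with `n` odd is the inverse of an integer. -/
lemma inv_isInteger (a : ℚ) (ha : a ≠ 0) (n : ℕ) (hroot : aeval a (B (2 * n + 1)) = 0) :
    ∃ k : ℤ, a⁻¹ = (k : ℚ) := by
  set p := B (2 * n + 1) with hp
  have hc : p.coeff 0 = 1 := (coeff_zero_B n).2
  have hmonic : p.reverse.Monic := by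
    unfold Monic
    rw [reverse_leadingCoeff]
    have : p.trailingCoeff = p.coeff 0 := by
      unfold trailingCoeff
      rw [natTrailingDegree_eq_zero.mpr (Or.inr (by rw [hc]; norm_num))]
    rw [this, hc]
  have hr : aeval a⁻¹ p.reverse = 0 := by
    have : Invertible a := invertibleOfNonzero ha
    have h1 := eval₂_reverse_eq_zero_iff (algebraMap ℤ ℚ) a p
    rw [invOf_eq_inv] at h1
    rw [aeval_def, h1, ← aeval_def]
    exact hroot
  obtain ⟨k, hk⟩ := isInteger_of_is_root_of_monic hmonic hr
  exact ⟨k, by rw [← hk]; simp⟩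

theorem rational_roots :
    {a : ℚ | ∃ n : ℕ, 1 ≤ n ∧ aeval a (B n) = 0} = {-1, -1 / 2, -1 / 3, 0} := by
  ext a
  simp only [Set.mem_ofPred_eq, Set.mem_insert_iff, Set.mem_singleton_iff]
  constructor
  · rintro ⟨n, hn, hroot⟩
    induction n using Nat.strong_induction_on with
    | _ n ih =>
      by_cases ha : a = 0
      · right; right; right; exact ha
      obtain ⟨k, hk⟩ := Nat.even_or_odd' n
      rcases hk with hk | hk
      · apply ih k (by omega) (by omega)
        have : a * b a k = 0 := by rw [← b_even, ← hk]; exact hroot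
        exact (mul_eq_zero.mp this).resolve_left ha
      · obtain ⟨m, hm⟩ := inv_isInteger a ha k (by rw [← hk]; exact hroot)
        have haneg : a < 0 := by
          rcases lt_trichotomy a 0 with h | h | h
          · exact h
          · exact absurd h ha
          · have := b_pos a h n hn
            exact absurd hroot (ne_of_gt this)
        have ham : a = (m : ℚ)⁻¹ := by rw [← hm, inv_inv]
        have hmneg : m < 0 := by
          have : (m : ℚ) < 0 := by rw [← hm]; exact inv_lt_zero.mpr haneg
          exact_mod_cast this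
        have hm4 : -4 < m := by
          by_contra hcon
          have hcon' : (m : ℚ) ≤ -4 := by exact_mod_cast not_lt.mp hcon
          have hge : -1 / 4 ≤ a := by
            have h5 : a * m = 1 := by
              rw [ham]; apply inv_mul_cancel₀
              exact_mod_cast hmneg.ne
            nlinarith
          obtain ⟨j, rfl⟩ : ∃ j, n = j + 1 := ⟨n - 1, by omega⟩
          exact (quotient_bound a hge haneg j).1 hroot
        have : m = -1 ∨ m = -2 ∨ m = -3 := by omega
        rcases this with h | h | h
        · left; rw [ham, h]; norm_num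
        · right; left; rw [ham, h]; norm_num
        · right; right; left; rw [ham, h]; norm_num
  · have h3 : ∀ a : ℚ, b a 3 = a + 1 := by
      intro a
      rw [show 3 = 2 * 1 + 1 by norm_num, b_odd, show 1 + 1 = 2 * 1 by norm_num, b_even, b_one]
      ring
    have h5 : ∀ a : ℚ, b a 5 = 2 * a + 1 := by
      intro a
      rw [show 5 = 2 * 2 + 1 by norm_num, b_odd, show 2 + 1 = 3 by norm_num, h3,
        show 2 = 2 * 1 by norm_num, b_even, b_one]
      ring
    have h21 : ∀ a : ℚ, b a 21 = (3 * a + 1) * (a + 1) := by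
      intro a
      rw [show 21 = 2 * 10 + 1 by norm_num, b_odd, show 10 + 1 = 2 * 5 + 1 by norm_num, b_odd,
        show 10 = 2 * 5 by norm_num, b_even, h5, show 5 + 1 = 2 * 3 by norm_num, b_even, h3]
      ring
    rintro (rfl | rfl | rfl | rfl)
    · exact ⟨3, by norm_num, by have := h3 (-1); rw [b] at this; rw [this]; norm_num⟩
    · exact ⟨5, by norm_num, by have := h5 (-1 / 2); rw [b] at this; rw [this]; norm_num⟩
    · exact ⟨21, by norm_num, by have := h21 (-1 / 3); rw [b] at this; rw [this]; norm_num⟩
    · exact ⟨2, by norm_num, by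
        have := b_even 0 1; rw [b] at this; rw [show 2 = 2 * 1 by norm_num, this]; simp⟩

end Pool.Agent.Lib_helper9.Stern
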